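import Pool.Agent.Helper75.FF.Defs

/-!
# The coniveau of powers over finite fields: combinatorics

For every word there is an ordering of the letters such that the sum of the slopes of the word is the
total value of a division into pieces.
-/

set_option autoImplicit false

namespace Pool.Agent.Helper75.FF

open Finset

/-! ### The ordering -/

/-- Sorting the letters of a block: differences of opposite letters are nonnegative and decreasing
in the lower half. -/
theorem exists_order {d : ℕ} (n : Fin d → ℕ) : ∃ π : Equiv.Perm (Fin d),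
    (∀ i, π i.rev = (π i).rev) ∧
    (∀ r : Fin d, r < r.rev → n (π.symm r.rev) ≤ n (π.symm r)) ∧
    ∀ r s : Fin d, r < s → s < s.rev →
      n (π.symm s) + n (π.symm r.rev) ≤ n (π.symm r) + n (π.symm s.rev) := by
  classical
  obtain ⟨π, hπ, hmin⟩ : ∃ π ∈ (univ.filter fun π : Equiv.Perm (Fin d) =>
      ∀ i, π i.rev = (π i).rev), ∀ π' ∈ (univ.filter fun π : Equiv.Perm (Fin d) =>
      ∀ i, π i.rev = (π i).rev), ∑ i, n i * (π i : ℕ) ≤ ∑ i, n i * (π' i : ℕ) :=
    exists_min_image _ (fun π : Equiv.Perm (Fin d) => ∑ i, n i * (π i : ℕ))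
      ⟨1, by simp⟩
  rw [mem_filter] at hπ
  have hcomm := hπ.2
  have hmin' : ∀ τ : Equiv.Perm (Fin d), (∀ i, τ i.rev = (τ i).rev) →
      ∑ j, n (π.symm j) * (j : ℕ) ≤ ∑ j, n (π.symm j) * (τ j : ℕ) := by
    intro τ hτ
    have h1 := hmin (τ * π) (by
      rw [mem_filter]
      refine ⟨mem_univ _, fun i => ?_⟩
      rw [Equiv.Perm.mul_apply, Equiv.Perm.mul_apply, hcomm, hτ])
    have h2 : ∑ i, n i * (π i : ℕ) = ∑ j, n (π.symm j) * (j : ℕ) := by
      refine Fintype.sum_equiv π _ _ fun i => ?_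
      rw [Equiv.symm_apply_apply]
    have h3 : ∑ i, n i * ((τ * π) i : ℕ) = ∑ j, n (π.symm j) * (τ j : ℕ) := by
      refine Fintype.sum_equiv π _ _ fun i => ?_
      rw [Equiv.symm_apply_apply, Equiv.Perm.mul_apply]
    rw [← h2, ← h3]
    exact h1
  refine ⟨π, hcomm, ?_, ?_⟩
  · intro r hr
    have hne : r ≠ r.rev := hr.ne
    have h1 := hmin' (Equiv.swap r r.rev) (by
      intro i
      by_cases h1 : i = r
      · subst h1
        rw [Equiv.swap_apply_left, Equiv.swap_apply_right, Fin.rev_rev]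
      · by_cases h2 : i = r.rev
        · subst h2
          rw [Fin.rev_rev, Equiv.swap_apply_left, Equiv.swap_apply_right]
        · rw [Equiv.swap_apply_of_ne_of_ne h1 h2, Equiv.swap_apply_of_ne_of_ne]
          · intro h
            exact h2 (by rw [← h, Fin.rev_rev])
          · intro h
            exact h1 (Fin.rev_injective h))
    have h2 : ∀ f : Fin d → ℕ, ∑ j, f j = f r + (f r.rev + ∑ j ∈ (univ.erase r).erase r.rev, f j) := by
      intro f
      rw [← add_sum_erase univ f (mem_univ r), ← add_sum_erase (univ.erase r) f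
        (mem_erase.2 ⟨hne.symm, mem_univ _⟩)]
    rw [h2, h2 (fun j => n (π.symm j) * ((Equiv.swap r r.rev) j : ℕ))] at h1
    have h3 : ∑ j ∈ (univ.erase r).erase r.rev, n (π.symm j) * ((Equiv.swap r r.rev) j : ℕ) =
        ∑ j ∈ (univ.erase r).erase r.rev, n (π.symm j) * (j : ℕ) := by
      refine sum_congr rfl fun j hj => ?_
      rw [mem_erase, mem_erase] at hj
      rw [Equiv.swap_apply_of_ne_of_ne hj.2.1 hj.1]
    rw [h3] at h1
    simp only [Equiv.swap_apply_left, Equiv.swap_apply_right] at h1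
    by_contra hcon
    push Not at hcon
    have h4 : (r : ℕ) < (r.rev : ℕ) := hr
    nlinarith
  · intro r s hrs hs
    have hsr : s.rev < r.rev := Fin.rev_lt_rev.2 hrs
    have n1 : r ≠ s := hrs.ne
    have n2 : r ≠ s.rev := (hrs.trans hs).ne
    have n3 : r ≠ r.rev := (hrs.trans (hs.trans hsr)).ne
    have n4 : s ≠ s.rev := hs.ne
    have n5 : s ≠ r.rev := (hs.trans hsr).ne
    have n6 : s.rev ≠ r.rev := hsr.ne
    obtain ⟨τ, hτ⟩ : ∃ τ : Equiv.Perm (Fin d), τ = Equiv.swap r s * Equiv.swap r.rev s.rev :=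
      ⟨_, rfl⟩
    have t1 : τ r = s := by
      rw [hτ, Equiv.Perm.mul_apply, Equiv.swap_apply_of_ne_of_ne n3 n2, Equiv.swap_apply_left]
    have t2 : τ s = r := by
      rw [hτ, Equiv.Perm.mul_apply, Equiv.swap_apply_of_ne_of_ne n5 n4, Equiv.swap_apply_right]
    have t3 : τ r.rev = s.rev := by
      rw [hτ, Equiv.Perm.mul_apply, Equiv.swap_apply_left,
        Equiv.swap_apply_of_ne_of_ne n2.symm n4.symm]
    have t4 : τ s.rev = r.rev := by
      rw [hτ, Equiv.Perm.mul_apply, Equiv.swap_apply_right,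
        Equiv.swap_apply_of_ne_of_ne n3.symm n5.symm]
    have t5 : ∀ i, i ≠ r → i ≠ s → i ≠ r.rev → i ≠ s.rev → τ i = i := by
      intro i h1 h2 h3 h4
      rw [hτ, Equiv.Perm.mul_apply, Equiv.swap_apply_of_ne_of_ne h3 h4,
        Equiv.swap_apply_of_ne_of_ne h1 h2]
    have h1 := hmin' τ (by
      intro i
      by_cases h1 : i = r
      · rw [h1, t1, t3]
      by_cases h2 : i = s
      · rw [h2, t2, t4]
      by_cases h3 : i = r.rev
      · rw [h3, Fin.rev_rev, t1, t3, Fin.rev_rev]
      by_cases h4 : i = s.rev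
      · rw [h4, Fin.rev_rev, t2, t4, Fin.rev_rev]
      rw [t5 i h1 h2 h3 h4, t5]
      · intro h
        exact h3 (by rw [← h, Fin.rev_rev])
      · intro h
        exact h4 (by rw [← h, Fin.rev_rev])
      · intro h
        exact h1 (Fin.rev_injective h)
      · intro h
        exact h2 (Fin.rev_injective h))
    have h2 : ∀ f : Fin d → ℕ, ∑ j, f j = f r + (f s + (f r.rev + (f s.rev +
        ∑ j ∈ (((univ.erase r).erase s).erase r.rev).erase s.rev, f j))) := by
      intro f
      rw [← add_sum_erase univ f (mem_univ r), ← add_sum_erase (univ.erase r) f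
        (mem_erase.2 ⟨n1.symm, mem_univ _⟩), ← add_sum_erase ((univ.erase r).erase s) f
        (mem_erase.2 ⟨n5.symm, mem_erase.2 ⟨n3.symm, mem_univ _⟩⟩),
        ← add_sum_erase (((univ.erase r).erase s).erase r.rev) f
        (mem_erase.2 ⟨n6, mem_erase.2 ⟨n4.symm, mem_erase.2 ⟨n2.symm, mem_univ _⟩⟩⟩)]
    rw [h2, h2 (fun j => n (π.symm j) * (τ j : ℕ))] at h1
    have h3 : ∑ j ∈ (((univ.erase r).erase s).erase r.rev).erase s.rev,
        n (π.symm j) * (τ j : ℕ) =
        ∑ j ∈ (((univ.erase r).erase s).erase r.rev).erase s.rev, n (π.symm j) * (j : ℕ) := by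
      refine sum_congr rfl fun j hj => ?_
      simp only [mem_erase, mem_univ, and_true] at hj
      rw [t5 j hj.2.2.2 hj.2.2.1 hj.2.1 hj.1]
    rw [h3] at h1
    simp only [t1, t2, t3, t4] at h1
    by_contra hcon
    push Not at hcon
    have e1 : (r : ℕ) < (s : ℕ) := hrs
    have e2 : (r.rev : ℕ) = d - 1 - r := by rw [Fin.val_rev]; omega
    have e3 : (s.rev : ℕ) = d - 1 - s := by rw [Fin.val_rev]; omega
    have e4 := r.2
    have e5 := s.2
    obtain ⟨x, hx⟩ : ∃ x, (s : ℕ) = r + (x + 1) := ⟨s - r - 1, by omega⟩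
    obtain ⟨z, hz⟩ : ∃ z, d - 1 - (s : ℕ) = z := ⟨_, rfl⟩
    have e6 : d - 1 - (r : ℕ) = z + (x + 1) := by omega
    rw [e2, e3, hz, e6, hx] at h1
    nlinarith

/-! ### Down-closed sets -/

private lemma mem_iff_of_down {d : ℕ} {R : Finset (Fin d)} (h : ∀ r ∈ R, ∀ s, s < r → s ∈ R)
    (r : Fin d) : r ∈ R ↔ (r : ℕ) < R.card := by
  constructor
  · intro hr
    have h1 : Iic r ⊆ R := by
      intro s hs
      rcases (mem_Iic.1 hs).lt_or_eq with h2 | h2
      · exact h r hr s h2
      · exact h2 ▸ hr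
    have h2 := card_le_card h1
    rw [Fin.card_Iic] at h2
    omega
  · intro hr
    by_contra hcon
    have h1 : R ⊆ Iio r := by
      intro s hs
      rw [mem_Iio]
      by_contra h2
      rcases (not_lt.1 h2).lt_or_eq with h3 | h3
      · exact hcon (h s hs r h3)
      · exact hcon (h3 ▸ hs)
    have h2 := card_le_card h1
    rw [Fin.card_Iio] at h2
    omega

private lemma nu_of_down {k : Blk} {R : Finset (Fin k.dim)} (h : ∀ r ∈ R, ∀ s, s < r → s ∈ R) :
    ∑ r ∈ R, k.slope r = k.nu R.card := by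
  unfold Blk.nu
  rw [← sum_filter]
  refine sum_congr ?_ fun _ _ => rfl
  ext r
  rw [mem_filter, mem_iff_of_down h r]
  simp

/-! ### Divisions into pieces -/

section

variable {B : Type} {k : B → Blk} {m : ℕ}

open Classical in
/-- The number of positions in `S` with the letter `l`. -/
private noncomputable def cnt (y : Fin m → Ind k) (S : Finset (Fin m)) (l : Ind k) : ℕ :=
  (S.filter fun p => y p = l).card

open Classical in
private lemma cnt_sdiff (y : Fin m → Ind k) {S T : Finset (Fin m)} (h : T ⊆ S) (l : Ind k) :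
    cnt y S l = cnt y (S \ T) l + cnt y T l := by
  unfold cnt
  rw [← card_union_of_disjoint, ← filter_union, sdiff_union_of_subset h]
  exact disjoint_filter_filter sdiff_disjoint

open Classical in
private lemma cnt_pos {y : Fin m → Ind k} {S : Finset (Fin m)} {l : Ind k} :
    0 < cnt y S l ↔ ∃ p ∈ S, y p = l := by
  unfold cnt
  rw [card_pos]
  constructor
  · rintro ⟨p, hp⟩
    exact ⟨p, (mem_filter.1 hp).1, (mem_filter.1 hp).2⟩
  · rintro ⟨p, hp, h⟩
    exact ⟨p, mem_filter.2 ⟨hp, h⟩⟩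

private lemma op_op (l : Ind k) : op (op l) = l := by
  obtain ⟨b, i⟩ := l
  unfold op
  simp

private lemma op_eq_iff {l l' : Ind k} : op l = l' ↔ l = op l' :=
  ⟨fun h => by rw [← h, op_op], fun h => by rw [h, op_op]⟩

open Classical in
private lemma cnt_pair {y : Fin m → Ind k} {p q : Fin m} (hpq : p ≠ q) (h : y q = op (y p))
    (l : Ind k) : cnt y {p, q} (op l) = cnt y {p, q} l := by
  have h1 : ∀ l : Ind k, cnt y {p, q} l = (if y p = l then 1 else 0) +
      (if op (y p) = l then 1 else 0) := by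
    intro l
    unfold cnt
    rw [filter_insert, filter_singleton, h]
    by_cases h1 : y p = l <;> by_cases h2 : op (y p) = l
    · rw [if_pos h1, if_pos h2, if_pos h1, if_pos h2, card_insert_of_notMem (by simpa using hpq),
        card_singleton]
    · rw [if_pos h1, if_neg h2, if_pos h1, if_neg h2, card_insert_of_notMem (by simp), card_empty]
    · rw [if_neg h1, if_pos h2, if_neg h1, if_pos h2, card_singleton]
    · rw [if_neg h1, if_neg h2, if_neg h1, if_neg h2, card_empty]
  rw [h1, h1]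
  have e1 : (y p = op l) ↔ (op (y p) = l) := op_eq_iff.symm
  have e2 : (op (y p) = op l) ↔ (y p = l) := by rw [op_eq_iff, op_op]
  simp only [e1, e2]
  exact add_comm _ _

/-- The ordering `π` sorts the letters of the word `y` on `S`. -/
private def Dom (π : ∀ b, Equiv.Perm (Fin (k b).dim)) (y : Fin m → Ind k) (S : Finset (Fin m)) :
    Prop :=
  ∀ b, (∀ r : Fin (k b).dim, r < r.rev →
      cnt y S ⟨b, (π b).symm r.rev⟩ ≤ cnt y S ⟨b, (π b).symm r⟩) ∧
    ∀ r s : Fin (k b).dim, r < s → s < s.rev →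
      cnt y S ⟨b, (π b).symm s⟩ + cnt y S ⟨b, (π b).symm r.rev⟩ ≤
        cnt y S ⟨b, (π b).symm r⟩ + cnt y S ⟨b, (π b).symm s.rev⟩

variable {π : ∀ b, Equiv.Perm (Fin (k b).dim)}

private lemma symm_rev (hπ : ∀ b i, π b i.rev = (π b i).rev) (b : B) (r : Fin (k b).dim) :
    (⟨b, (π b).symm r.rev⟩ : Ind k) = op ⟨b, (π b).symm r⟩ := by
  unfold op
  congr 1
  rw [Equiv.symm_apply_eq, hπ, Equiv.apply_symm_apply]

private lemma dom_pair (hπ : ∀ b i, π b i.rev = (π b i).rev) {y : Fin m → Ind k}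
    {S : Finset (Fin m)} (hD : Dom π y S) {p q : Fin m} (hp : p ∈ S) (hq : q ∈ S) (hpq : p ≠ q)
    (h : y q = op (y p)) : Dom π y (S \ {p, q}) := by
  have hT : ({p, q} : Finset (Fin m)) ⊆ S := by
    intro x hx
    rw [mem_insert, mem_singleton] at hx
    rcases hx with rfl | rfl
    · exact hp
    · exact hq
  intro b
  obtain ⟨h1, h2⟩ := hD b
  have h3 : ∀ r, cnt y {p, q} ⟨b, (π b).symm r.rev⟩ = cnt y {p, q} ⟨b, (π b).symm r⟩ := by
    intro r
    rw [symm_rev hπ, cnt_pair hpq h]
  refine ⟨fun r hr => ?_, fun r s hr hs => ?_⟩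
  · have a1 := h1 r hr
    rw [cnt_sdiff y hT, cnt_sdiff y hT ⟨b, (π b).symm r⟩, h3] at a1
    omega
  · have a1 := h2 r s hr hs
    rw [cnt_sdiff y hT, cnt_sdiff y hT ⟨b, (π b).symm r.rev⟩, cnt_sdiff y hT ⟨b, (π b).symm r⟩,
      cnt_sdiff y hT ⟨b, (π b).symm s.rev⟩, h3, h3] at a1
    omega

/-- Adding a piece. -/
private lemma add_piece {y : Fin m → Ind k} {S T : Finset (Fin m)} {f : Fin m → ℕ} (hT : T ⊆ S)
    (hne : T.Nonempty) (hp : IsPiece y T (∑ p ∈ T, f p))
    (h : ∃ (P : Finpartition (S \ T)) (v : Finset (Fin m) → ℕ), (∀ A ∈ P.parts, IsPiece y A (v A)) ∧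
      ∑ A ∈ P.parts, v A = ∑ p ∈ S \ T, f p) :
    ∃ (P : Finpartition S) (v : Finset (Fin m) → ℕ), (∀ A ∈ P.parts, IsPiece y A (v A)) ∧
      ∑ A ∈ P.parts, v A = ∑ p ∈ S, f p := by
  classical
  obtain ⟨P, v, hv, hs⟩ := h
  have hd : Disjoint (S \ T) T := sdiff_disjoint
  have hTP : T ∉ P.parts := by
    intro h
    have h1 := P.le h
    obtain ⟨x, hx⟩ := hne
    exact (mem_sdiff.1 (h1 hx)).2 hx
  refine ⟨P.extend (b := T) hne.ne_empty hd (by
    rw [sup_eq_union, sdiff_union_of_subset hT]), Function.update v T (∑ p ∈ T, f p), ?_, ?_⟩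
  · intro A hA
    rw [Finpartition.extend_parts, mem_insert] at hA
    rcases hA with rfl | hA
    · rw [Function.update_self]
      exact hp
    · rw [Function.update_of_ne (ne_of_mem_of_not_mem hA hTP)]
      exact hv A hA
  · rw [Finpartition.extend_parts, sum_insert hTP, Function.update_self,
      ← sum_sdiff hT, ← hs, add_comm]
    congr 1
    refine sum_congr rfl fun A hA => ?_
    rw [Function.update_of_ne (ne_of_mem_of_not_mem hA hTP)]

/-- The first positions of the letters of the block `b` in `S`. -/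
private lemma exists_column (hk : ∀ b, (k b).Ok) (hπ : ∀ b i, π b i.rev = (π b i).rev)
    {y : Fin m → Ind k} {S : Finset (Fin m)} (hD : Dom π y S)
    (hno : ∀ p ∈ S, ∀ q ∈ S, p ≠ q → y q ≠ op (y p)) {p₀ : Fin m} (hp₀ : p₀ ∈ S) :
    ∃ T ⊆ S, T.Nonempty ∧
      IsPiece y T (∑ p ∈ T, (k (y p).1).slope (π (y p).1 (y p).2)) ∧ Dom π y (S \ T) := by
  classical
  obtain ⟨b, hb⟩ : ∃ b, b = (y p₀).1 := ⟨_, rfl⟩
  obtain ⟨T, hTdef⟩ : ∃ T : Finset (Fin m),
      T = S.filter fun p => (y p).1 = b ∧ ∀ q ∈ S, y q = y p → p ≤ q := ⟨_, rfl⟩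
  have hTS : T ⊆ S := by
    rw [hTdef]
    exact filter_subset _ _
  have hTb : ∀ p ∈ T, (y p).1 = b := fun p hp => by
    rw [hTdef, mem_filter] at hp
    exact hp.2.1
  have hinj : Set.InjOn y T := by
    intro p hp q hq h
    rw [hTdef, mem_coe, mem_filter] at hp hq
    exact le_antisymm (hp.2.2 q hq.1 h.symm) (hq.2.2 p hp.1 h)
  -- every letter of the block has one position in `T`
  have hex : ∀ l : Ind k, l.1 = b → 0 < cnt y S l → ∃ p ∈ T, y p = l := by
    intro l hl h
    obtain ⟨p, hp, hpl⟩ := cnt_pos.1 h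
    have hne : (S.filter fun p => y p = l).Nonempty := ⟨p, mem_filter.2 ⟨hp, hpl⟩⟩
    have h1 := min'_mem _ hne
    rw [mem_filter] at h1
    refine ⟨_, ?_, h1.2⟩
    rw [hTdef, mem_filter]
    refine ⟨h1.1, by rw [h1.2, hl], fun q hq hqy => ?_⟩
    exact min'_le _ _ (mem_filter.2 ⟨hq, by rw [hqy, h1.2]⟩)
  have hcnt : ∀ l : Ind k, l.1 = b → cnt y T l = if 0 < cnt y S l then 1 else 0 := by
    intro l hl
    split_ifs with h
    · obtain ⟨p, hp, hpl⟩ := hex l hl h
      unfold cnt
      rw [card_eq_one]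
      refine ⟨p, ?_⟩
      ext q
      rw [mem_filter, mem_singleton]
      constructor
      · rintro ⟨h1, h2⟩
        exact hinj h1 hp (by rw [h2, hpl])
      · rintro rfl
        exact ⟨hp, hpl⟩
    · by_contra h1
      obtain ⟨p, hp, hpl⟩ := cnt_pos.1 (Nat.pos_of_ne_zero h1)
      exact h (cnt_pos.2 ⟨p, hTS hp, hpl⟩)
  have hcnt' : ∀ l : Ind k, l.1 ≠ b → cnt y T l = 0 := by
    intro l hl
    by_contra h1
    obtain ⟨p, hp, hpl⟩ := cnt_pos.1 (Nat.pos_of_ne_zero h1)
    exact hl (by rw [← hpl, hTb p hp])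
  -- no opposite letters
  have hz : ∀ r : Fin (k b).dim, r < r.rev → cnt y S ⟨b, (π b).symm r.rev⟩ = 0 := by
    intro r hr
    by_contra h1
    have h2 := (hD b).1 r hr
    obtain ⟨p, hp, hpl⟩ := cnt_pos.1 (Nat.pos_of_ne_zero h1)
    obtain ⟨q, hq, hql⟩ := cnt_pos.1 (lt_of_lt_of_le (Nat.pos_of_ne_zero h1) h2)
    rw [symm_rev hπ] at hpl
    refine hno q hq p hp ?_ (by rw [hpl, hql])
    rintro rfl
    rw [hpl] at hql
    have h3 := congrArg (fun l : Ind k => l) hql
    unfold op at h3
    simp only [Sigma.mk.injEq, heq_eq_eq, true_and] at h3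
    have h4 : (π b) ((π b).symm r).rev = (π b) ((π b).symm r) := by rw [h3]
    rw [hπ, Equiv.apply_symm_apply] at h4
    exact hr.ne h4.symm
  have hT : T.Nonempty := by
    obtain ⟨p, hp, _⟩ := hex (y p₀) hb.symm (cnt_pos.2 ⟨p₀, hp₀, rfl⟩)
    exact ⟨p, hp⟩
  refine ⟨T, hTS, hT, ?_, ?_⟩
  · left
    refine ⟨b, hTb, hinj, fun p hp q hq => hno p (hTS hp) q (hTS hq), ?_⟩
    -- the ranks of the letters
    obtain ⟨R, hR⟩ : ∃ R : Finset (Fin (k b).dim),
        R = univ.filter fun r => 0 < cnt y S ⟨b, (π b).symm r⟩ := ⟨_, rfl⟩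
    have hmem : ∀ r, r ∈ R ↔ 0 < cnt y S ⟨b, (π b).symm r⟩ := fun r => by
      rw [hR, mem_filter]
      exact ⟨fun h => h.2, fun h => ⟨mem_univ _, h⟩⟩
    have hdown : ∀ r ∈ R, ∀ s, s < r → s ∈ R := by
      intro r hr s hs
      rw [hmem] at hr ⊢
      rcases (hk b).even with h1 | h1
      · have e1 := r.2
        have e2 : (s : ℕ) < r := hs
        omega
      · have h2 : r < r.rev := by
          rcases lt_trichotomy r r.rev with h3 | h3 | h3
          · exact h3
          · exfalso
            have e1 : (r : ℕ) = (r.rev : ℕ) := congrArg _ h3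
            rw [Fin.val_rev] at e1
            have e2 := r.2
            obtain ⟨x, hx⟩ := h1
            omega
          · exfalso
            have h4 := hz r.rev (by rw [Fin.rev_rev]; exact h3)
            rw [Fin.rev_rev] at h4
            omega
        have h3 := (hD b).2 s r hs h2
        have h4 := hz r h2
        omega
    have himg : T.image y = R.image fun r => (⟨b, (π b).symm r⟩ : Ind k) := by
      ext l
      rw [mem_image, mem_image]
      constructor
      · rintro ⟨p, hp, rfl⟩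
        have h1 := hTb p hp
        refine ⟨π b (h1 ▸ (y p).2), ?_, ?_⟩
        · rw [hmem, Equiv.symm_apply_apply]
          refine cnt_pos.2 ⟨p, hTS hp, ?_⟩
          subst h1
          rfl
        · rw [Equiv.symm_apply_apply]
          subst h1
          rfl
      · rintro ⟨r, hr, rfl⟩
        exact hex _ rfl ((hmem r).1 hr)
    have hinj2 : Set.InjOn (fun r => (⟨b, (π b).symm r⟩ : Ind k)) R := by
      intro r _ s _ h
      simp only [Sigma.mk.injEq, heq_eq_eq, true_and] at h
      exact (π b).symm.injective h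
    have hcard : T.card = R.card := by
      rw [← card_image_of_injOn hinj, himg, card_image_of_injOn hinj2]
    rw [hcard, ← nu_of_down hdown]
    have h1 : ∑ p ∈ T, (k (y p).1).slope (π (y p).1 (y p).2) =
        ∑ l ∈ T.image y, (k l.1).slope (π l.1 l.2) := by
      rw [sum_image hinj]
    rw [h1, himg, sum_image hinj2]
    refine sum_congr rfl fun r _ => ?_
    simp only [Equiv.apply_symm_apply]
  · intro b'
    by_cases hb' : b' = b
    · subst hb'
      have h1 : ∀ r : Fin (k b').dim, cnt y S ⟨b', (π b').symm r⟩ =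
          cnt y (S \ T) ⟨b', (π b').symm r⟩ +
            if 0 < cnt y S ⟨b', (π b').symm r⟩ then 1 else 0 := by
        intro r
        rw [← hcnt _ rfl]
        exact cnt_sdiff y hTS _
      refine ⟨fun r hr => ?_, fun r s hr hs => ?_⟩
      · have e1 := hz r hr
        have e2 := h1 r.rev
        omega
      · have e1 := hz s hs
        have e2 := hz r (hr.trans (hs.trans (Fin.rev_lt_rev.2 hr)))
        have e3 := (hD b').2 r s hr hs
        have e4 := h1 r
        have e5 := h1 s
        have e6 := h1 r.rev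
        have e7 := h1 s.rev
        split_ifs at e4 e5 e6 e7 <;> omega
    · have h1 : ∀ r : Fin (k b').dim, cnt y (S \ T) ⟨b', (π b').symm r⟩ =
          cnt y S ⟨b', (π b').symm r⟩ := by
        intro r
        have := cnt_sdiff y hTS ⟨b', (π b').symm r⟩
        rw [hcnt' _ hb'] at this
        omega
      refine ⟨fun r hr => ?_, fun r s hr hs => ?_⟩
      · rw [h1, h1]
        exact (hD b').1 r hr
      · rw [h1, h1, h1, h1]
        exact (hD b').2 r s hr hs

private lemma exists_split (hk : ∀ b, (k b).Ok) (hπ : ∀ b i, π b i.rev = (π b i).rev)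
    (y : Fin m → Ind k) : ∀ (N : ℕ) (S : Finset (Fin m)), S.card ≤ N → Dom π y S →
      ∃ (P : Finpartition S) (v : Finset (Fin m) → ℕ), (∀ A ∈ P.parts, IsPiece y A (v A)) ∧
        ∑ A ∈ P.parts, v A = ∑ p ∈ S, (k (y p).1).slope (π (y p).1 (y p).2) := by
  classical
  intro N
  induction N with
  | zero =>
    intro S hS _
    have h1 : S = ∅ := card_eq_zero.1 (Nat.le_zero.1 hS)
    subst h1
    exact ⟨Finpartition.empty (Finset (Fin m)), fun _ => 0, fun A hA => by
      simp at hA, by simp⟩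
  | succ N ih =>
    intro S hS hD
    rcases S.eq_empty_or_nonempty with h0 | ⟨p₀, hp₀⟩
    · subst h0
      exact ih ∅ (by simp) hD
    have key : ∀ T ⊆ S, T.Nonempty →
        IsPiece y T (∑ p ∈ T, (k (y p).1).slope (π (y p).1 (y p).2)) → Dom π y (S \ T) →
        ∃ (P : Finpartition S) (v : Finset (Fin m) → ℕ), (∀ A ∈ P.parts, IsPiece y A (v A)) ∧
          ∑ A ∈ P.parts, v A = ∑ p ∈ S, (k (y p).1).slope (π (y p).1 (y p).2) := by
      intro T hTS hT hp hd
      refine add_piece hTS hT hp (ih _ ?_ hd)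
      have h1 := card_sdiff_add_card_eq_card hTS
      have h2 := card_pos.2 hT
      omega
    by_cases hno : ∀ p ∈ S, ∀ q ∈ S, p ≠ q → y q ≠ op (y p)
    · obtain ⟨T, hTS, hT, hp, hd⟩ := exists_column hk hπ hD hno hp₀
      exact key T hTS hT hp hd
    · push Not at hno
      obtain ⟨p, hp, q, hq, hpq, h⟩ := hno
      refine key {p, q} ?_ ⟨p, by simp⟩ ?_ (dom_pair hπ hD hp hq hpq h)
      · intro x hx
        rw [mem_insert, mem_singleton] at hx
        rcases hx with rfl | rfl
        · exact hp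
        · exact hq
      · right
        refine ⟨p, q, hpq, rfl, h, ?_⟩
        rw [sum_pair hpq, h]
        change (k (y p).1).slope (π (y p).1 (y p).2) +
          (k (y p).1).slope (π (y p).1 (y p).2.rev) = _
        rw [hπ, (hk _).dual]

/-- Every word has an ordering of the letters for which the sum of the slopes is the total value of a
division into pieces. -/
theorem exists_order_split (hk : ∀ b, (k b).Ok) (y : Fin m → Ind k) :
    ∃ π : ∀ b, Equiv.Perm (Fin (k b).dim), (∀ b i, π b i.rev = (π b i).rev) ∧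
      Splits y (∑ p, (k (y p).1).slope (π (y p).1 (y p).2)) := by
  choose π h1 h2 h3 using fun b => exists_order (fun i : Fin (k b).dim => cnt y univ ⟨b, i⟩)
  obtain ⟨P, v, hv, hs⟩ := exists_split (π := π) hk h1 y univ.card univ le_rfl
    (fun b => ⟨h2 b, h3 b⟩)
  exact ⟨π, h1, P, v, hv, hs.ge⟩

end

end Pool.Agent.Helper75.FF
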