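import Mathlib

/-!
# The Galois coniveau filtration of all products of powers of varieties over finite fields

Let `X_b`, `b ∈ B`, be smooth projective varieties over a finite field; `V = ⊕ V_b` is (a piece of)
their cohomology with coefficients extended to `ℚ̄_ℓ ≅ ℂ`, for example: `V_b` is the primitive
cohomology of a complete intersection, the transcendental part of a K3 surface or `H¹` of an abelian
variety, and the blocks of dimension one are algebraic classes. A block has a dimension, a weight and
slopes. The letters `(b, j)`, `j < dim b`, stand for the eigenvectors of Frobenius in `V_b`; the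
letter opposite to `(b, j)` is `(b, dim b - 1 - j)`. A word `y : Fin m → Ind k` stands for the
product of the eigenvectors `y 0`, ..., `y (m - 1)` in the tensor power `V^(⊗ m)`; an element of
`V^(⊗ m)` is a function on the words.
`𝓕` is a set of pairs (number `q` of elements of the residue field, eigenvalues of Frobenius): one
pair for varieties over a finite field, the pairs of all places of good reduction for varieties over
a number field whose Frobenii are diagonal in one basis (complex multiplication).
-/

set_option autoImplicit false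

namespace Pool.Agent.Helper75.FF

/-- The numerical data of a block: dimension, weight, slopes. -/
structure Blk where
  dim : ℕ
  wt : ℕ
  slope : Fin dim → ℕ

/-- The slopes are increasing and symmetric; the dimension is even or one. -/
structure Blk.Ok (k : Blk) : Prop where
  mono : Monotone k.slope
  dual : ∀ i, k.slope i + k.slope i.rev = k.wt
  even : k.dim = 1 ∨ Even k.dim

/-- The sum of the first `j` slopes. -/
def Blk.nu (k : Blk) (j : ℕ) : ℕ := ∑ i : Fin k.dim, if (i : ℕ) < j then k.slope i else 0

section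

variable {B : Type} (k : B → Blk)

/-- The letters. -/
abbrev Ind : Type := Σ b, Fin (k b).dim

variable {k}

/-- The opposite letter. -/
def op (l : Ind k) : Ind k := ⟨l.1, l.2.rev⟩

/-- On the set `S` of positions the word `y` is a piece of value `v`: either it consists of
different letters of one block `b`, no two of them opposite, and `v` is the sum of the first `|S|`
slopes of `b`, or it consists of two opposite letters of a block, and `v` is the weight of this
block. -/
def IsPiece {m : ℕ} (y : Fin m → Ind k) (S : Finset (Fin m)) (v : ℕ) : Prop :=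
  (∃ b, (∀ p ∈ S, (y p).1 = b) ∧ Set.InjOn y S ∧ (∀ p ∈ S, ∀ q ∈ S, p ≠ q → y q ≠ op (y p)) ∧
    v = (k b).nu S.card) ∨
    ∃ p q, p ≠ q ∧ S = {p, q} ∧ y q = op (y p) ∧ v = (k (y p).1).wt

/-- The positions can be divided into pieces of total value at least `ν`. -/
def Splits {m : ℕ} (y : Fin m → Ind k) (ν : ℕ) : Prop :=
  ∃ (P : Finpartition (Finset.univ : Finset (Fin m))) (v : Finset (Fin m) → ℕ),
    (∀ S ∈ P.parts, IsPiece y S (v S)) ∧ ν ≤ ∑ S ∈ P.parts, v S

end

variable {B : Type} [Fintype B]

/-- The number of elements of the residue field and the eigenvalues of Frobenius. -/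
abbrev Frob (k : B → Blk) : Type := ℕ × (Ind k → ℂ)

/-- The Frobenius with the eigenvalues `α` on the tensor power `V^(⊗ m)`. -/
noncomputable def frob {k : B → Blk} {m : ℕ} (α : Ind k → ℂ) :
    ((Fin m → Ind k) → ℂ) →ₗ[ℂ] ((Fin m → Ind k) → ℂ) where
  toFun u := fun y => (∏ p, α (y p)) * u y
  map_add' u v := by
    funext y
    exact mul_add _ _ _
  map_smul' c u := by
    funext y
    simp only [Pi.smul_apply, smul_eq_mul, RingHom.id_apply]
    ring

/-- `U ⊆ V^(⊗ m)` is a subrepresentation of degree `i` such that `U(ν)` is effective of weight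
`i - 2ν`: `U` is stable under all Frobenii, and for every eigenvalue `β` of a Frobenius `(q, α)` on
`U` both `β / q ^ ν` and `q ^ (i - ν) / β = q ^ (i - 2ν) / (β / q ^ ν)` are algebraic integers. -/
structure IsEffective {k : B → Blk} (𝓕 : Set (Frob k)) (m i ν : ℕ)
    (U : Submodule ℂ ((Fin m → Ind k) → ℂ)) : Prop where
  degree : ∀ u ∈ U, ∀ y, u y ≠ 0 → ∑ p, (k (y p).1).wt = i
  stable : ∀ z ∈ 𝓕, ∀ u ∈ U, frob z.2 u ∈ U
  integral : ∀ z ∈ 𝓕, ∀ u ∈ U, u ≠ 0 → ∀ β : ℂ, frob z.2 u = β • u →
    IsIntegral ℤ (β / (z.1 : ℂ) ^ ν) ∧ IsIntegral ℤ ((z.1 : ℂ) ^ (i - ν) / β)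

/-- The Galois coniveau: the span of all subrepresentations `U` of degree `i` of `V^(⊗ m)` such that
`U(ν)` is effective of weight `i - 2ν`. -/
noncomputable def galoisConiveau {k : B → Blk} (𝓕 : Set (Frob k)) (m i ν : ℕ) :
    Submodule ℂ ((Fin m → Ind k) → ℂ) := sSup {U | IsEffective 𝓕 m i ν U}

open scoped Classical in
/-- The span of the products of eigenvectors (words) of degree `i` which split into pieces of total
value at least `ν`. -/
noncomputable def pieceConiveau (k : B → Blk) (m i ν : ℕ) :
    Submodule ℂ ((Fin m → Ind k) → ℂ) :=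
  Submodule.span ℂ {u | ∃ y : Fin m → Ind k, ∑ p, (k (y p).1).wt = i ∧ Splits y ν ∧
    u = Pi.single y 1}

/-- For some prime `P` over `q` of the ring of all algebraic integers the eigenvalue `α l` is
`q ^ slope` times a unit at `P` (a quotient of two algebraic integers outside of `P`), where the
slope of `l = (b, j)` is the slope number `π b j` of the block `b`. -/
def IsPlace {k : B → Blk} (z : Frob k) (π : ∀ b, Equiv.Perm (Fin (k b).dim)) : Prop :=
  ∃ P : Ideal (integralClosure ℤ ℂ), P.IsPrime ∧ (z.1 : integralClosure ℤ ℂ) ∈ P ∧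
    ∀ l : Ind k, ∃ a c : integralClosure ℤ ℂ, a ∉ P ∧ c ∉ P ∧
      (c : ℂ) * z.2 l = (z.1 : ℂ) ^ (k l.1).slope (π l.1 l.2) * (a : ℂ)

/-- `dual`: opposite eigenvalues have the product `q ^ wt`. `sep`: the eigenvalues on each block are
different. `above`: the Newton polygon lies above the polygon of the slopes, that is, the product of
`j` different eigenvalues of a block is divisible by `q` to the sum of the first `j` slopes. `place`:
the slopes of the eigenvalues at the primes over `q` come in all orders which are compatible with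
the passage to the opposite letters. -/
structure IsBig {k : B → Blk} (𝓕 : Set (Frob k)) : Prop where
  two_le : ∀ z ∈ 𝓕, 2 ≤ z.1
  dual : ∀ z ∈ 𝓕, ∀ l : Ind k, z.2 l * z.2 (op l) = (z.1 : ℂ) ^ (k l.1).wt
  sep : ∀ (b : B) (j j' : Fin (k b).dim), j ≠ j' → ∃ z ∈ 𝓕, z.2 ⟨b, j⟩ ≠ z.2 ⟨b, j'⟩
  above : ∀ z ∈ 𝓕, ∀ (b : B) (J : Finset (Fin (k b).dim)),
    IsIntegral ℤ ((∏ j ∈ J, z.2 ⟨b, j⟩) / (z.1 : ℂ) ^ (k b).nu J.card)
  place : ∀ π : ∀ b, Equiv.Perm (Fin (k b).dim), (∀ b j, π b j.rev = (π b j).rev) →
    ∃ z ∈ 𝓕, IsPlace z π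

/-- The alternating tensors in `V_b^(⊗ j)`, that is, `Λʲ V_b`. -/
def altPart (k : B → Blk) (b : B) (j : ℕ) : Submodule ℂ ((Fin j → Ind k) → ℂ) where
  carrier := {t | (∀ y, t y ≠ 0 → ∀ p, (y p).1 = b) ∧
    ∀ y, ∀ p q : Fin j, p ≠ q → t (y ∘ Equiv.swap p q) = -t y}
  zero_mem' := ⟨fun y hy => absurd rfl hy, fun y p q _ => by simp⟩
  add_mem' := by
    intro s t hs ht
    refine ⟨fun y hy p => ?_, fun y p q hpq => ?_⟩
    · by_cases h : s y = 0
      · exact ht.1 y (fun h' => hy (by rw [Pi.add_apply, h, h', add_zero])) p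
      · exact hs.1 y h p
    · rw [Pi.add_apply, Pi.add_apply, hs.2 y p q hpq, ht.2 y p q hpq, neg_add]
  smul_mem' := by
    intro c t ht
    refine ⟨fun y hy p => ?_, fun y p q hpq => ?_⟩
    · exact ht.1 y (fun h' => hy (by rw [Pi.smul_apply, h', smul_zero])) p
    · rw [Pi.smul_apply, Pi.smul_apply, ht.2 y p q hpq, smul_neg]

/-- In the words of `u` each block `b` occurs at most `M b` times: `u` belongs to the products of at
most `M b` copies of the `X_b`. -/
def AtMost {k : B → Blk} (M : B → ℕ) {m : ℕ} (u : (Fin m → Ind k) → ℂ) : Prop :=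
  ∀ y, u y ≠ 0 → ∀ b, Nat.card {p // (y p).1 = b} ≤ M b

open scoped Classical in
/-- The properties of the geometric coniveau filtration `G m ν = N^ν ∩ V^(⊗ m)` which are used:
everything has coniveau at least zero; the filtration is decreasing; products, in any order of the
factors; stability under the Frobenius correspondence of each factor; the product of two opposite
eigenvectors of a block is an algebraic class (a combination of graphs of powers of Frobenius). -/
structure IsGeometric {k : B → Blk} (𝓕 : Set (Frob k))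
    (G : (m : ℕ) → ℕ → Submodule ℂ ((Fin m → Ind k) → ℂ)) : Prop where
  zero : ∀ m, G m 0 = ⊤
  anti : ∀ m ν μ, ν ≤ μ → G m μ ≤ G m ν
  mul : ∀ (m n r : ℕ) (c : Fin m ⊕ Fin n ≃ Fin r) (ν μ : ℕ), ∀ u ∈ G m ν, ∀ v ∈ G n μ,
    (fun y => u (y ∘ c ∘ Sum.inl) * v (y ∘ c ∘ Sum.inr)) ∈ G r (ν + μ)
  frob : ∀ z ∈ 𝓕, ∀ (m ν : ℕ) (p : Fin m), ∀ u ∈ G m ν, (fun y => z.2 (y p) * u y) ∈ G m ν
  pair : ∀ l : Ind k, Pi.single ![l, op l] 1 ∈ G 2 (k l.1).wt

end Pool.Agent.Helper75.FF
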