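import Pool.Agent.Helper75.FF.Comb

/-!
# The Galois coniveau filtration over finite fields: proof
-/

set_option autoImplicit false

namespace Pool.Agent.Helper75.FF

open Polynomial

variable {B : Type} [Fintype B]

section Proof

variable {k : B → Blk} {𝓕 : Set (Frob k)}

lemma aeval_frob {m : ℕ} (α : Ind k → ℂ) (p : ℂ[X]) (u : (Fin m → Ind k) → ℂ)
    (y : Fin m → Ind k) : (aeval (frob (m := m) α) p u) y = p.eval (∏ j, α (y j)) * u y := by
  induction p using Polynomial.induction_on' with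
  | add p q hp hq =>
    rw [map_add, LinearMap.add_apply, Pi.add_apply, hp, hq, Polynomial.eval_add, add_mul]
  | monomial n c =>
    have h1 : ∀ n : ℕ, (((frob (m := m) α) ^ n) u) y = (∏ j, α (y j)) ^ n * u y := by
      intro n
      induction n with
      | zero => simp
      | succ n ih =>
        rw [pow_succ', Module.End.mul_apply]
        change (∏ j, α (y j)) * (((frob (m := m) α) ^ n) u) y = _
        rw [ih, pow_succ']
        ring
    rw [aeval_monomial, Module.End.mul_apply, Module.algebraMap_end_apply, Pi.smul_apply, h1,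
      Polynomial.eval_monomial, smul_eq_mul, mul_assoc]

/-- An eigenvalue of a word in the support of an element of an effective subrepresentation. -/
lemma integral_word {m i ν : ℕ} {U : Submodule ℂ ((Fin m → Ind k) → ℂ)}
    (hU : IsEffective 𝓕 m i ν U) {z : Frob k} (hz : z ∈ 𝓕) {u : (Fin m → Ind k) → ℂ}
    (hu : u ∈ U) {y : Fin m → Ind k} (hy : u y ≠ 0) :
    IsIntegral ℤ ((∏ p, z.2 (y p)) / (z.1 : ℂ) ^ ν) := by
  have hst : ∀ x ∈ U, frob (m := m) z.2 x ∈ U := fun x hx => hU.stable z hz x hx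
  let Φ : Module.End ℂ U := (frob (m := m) z.2).restrict hst
  have h1 : ∀ (p : ℂ[X]) (x : U), ((aeval Φ p x : U) : (Fin m → Ind k) → ℂ) =
      aeval (frob (m := m) z.2) p (x : (Fin m → Ind k) → ℂ) := by
    intro p x
    induction p using Polynomial.induction_on' with
    | add p q hp hq =>
      rw [map_add, map_add, LinearMap.add_apply, LinearMap.add_apply, Submodule.coe_add, hp, hq]
    | monomial n c =>
      have h2 : ∀ n : ℕ, ((Φ ^ n) x : (Fin m → Ind k) → ℂ) =
          ((frob (m := m) z.2) ^ n) (x : (Fin m → Ind k) → ℂ) := by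
        intro n
        induction n with
        | zero => rfl
        | succ n ih =>
          rw [pow_succ', pow_succ', Module.End.mul_apply, Module.End.mul_apply, ← ih]
          rfl
      rw [aeval_monomial, aeval_monomial, Module.End.mul_apply, Module.End.mul_apply,
        Module.algebraMap_end_apply, Module.algebraMap_end_apply, Submodule.coe_smul, h2]
  have h2 : (minpoly ℂ Φ).eval (∏ p, z.2 (y p)) * u y = 0 := by
    have h0 : aeval Φ (minpoly ℂ Φ) = 0 := minpoly.aeval ℂ Φ
    rw [← aeval_frob z.2 (minpoly ℂ Φ) u y, ← h1 (minpoly ℂ Φ) ⟨u, hu⟩, h0]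
    rfl
  have h3 : (minpoly ℂ Φ).IsRoot (∏ p, z.2 (y p)) := (mul_eq_zero.1 h2).resolve_right hy
  obtain ⟨v, hv⟩ := (Module.End.hasEigenvalue_of_isRoot h3).exists_hasEigenvector
  have h4 : Φ v = (∏ p, z.2 (y p)) • v := hv.apply_eq_smul
  exact (hU.integral z hz v.1 v.2 (fun h0 => hv.2 (Subtype.ext h0)) _
    (congrArg Subtype.val h4)).1

/-- The sum of the slopes is at least `ν`. -/
lemma le_slopes {m : ℕ} {y : Fin m → Ind k} {z : Frob k} (hz2 : 2 ≤ z.1)
    {π : ∀ b, Equiv.Perm (Fin (k b).dim)} (hp : IsPlace z π) {ν : ℕ}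
    (h : IsIntegral ℤ ((∏ p, z.2 (y p)) / (z.1 : ℂ) ^ ν)) :
    ν ≤ ∑ p, (k (y p).1).slope (π (y p).1 (y p).2) := by
  obtain ⟨P, hP, hqP, hl⟩ := hp
  choose a c ha hc hac using hl
  by_contra hcon
  push Not at hcon
  obtain ⟨e, he⟩ : ∃ e, ν = (∑ p, (k (y p).1).slope (π (y p).1 (y p).2)) + (e + 1) :=
    ⟨ν - (∑ p, (k (y p).1).slope (π (y p).1 (y p).2)) - 1, by omega⟩
  have hq0 : (z.1 : ℂ) ≠ 0 := Nat.cast_ne_zero.2 (by omega)
  have h10 : (∏ j, (c (y j) : ℂ)) * ∏ j, z.2 (y j) =
      (z.1 : ℂ) ^ (∑ p, (k (y p).1).slope (π (y p).1 (y p).2)) * ∏ j, (a (y j) : ℂ) := by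
    rw [← Finset.prod_mul_distrib, ← Finset.prod_pow_eq_pow_sum, ← Finset.prod_mul_distrib]
    exact Finset.prod_congr rfl fun j _ => hac (y j)
  have h8 : ∏ j, a (y j) = (z.1 : integralClosure ℤ ℂ) * ((z.1 : integralClosure ℤ ℂ) ^ e *
      (⟨_, h⟩ : integralClosure ℤ ℂ) * ∏ j, c (y j)) := by
    apply Subtype.ext
    push_cast
    have h11 : (z.1 : ℂ) ^ (∑ p, (k (y p).1).slope (π (y p).1 (y p).2)) ≠ 0 := pow_ne_zero _ hq0
    apply mul_left_cancel₀ h11
    rw [← h10, he]
    field_simp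
    ring
  have h9 : ∏ j, a (y j) ∈ P := by
    rw [h8]
    exact P.mul_mem_right _ hqP
  obtain ⟨j, _, hj⟩ := (Ideal.IsPrime.prod_mem_iff (hp := hP)).1 h9
  exact ha _ hj

lemma splits_of_mem (hk : ∀ b, (k b).Ok) (h : IsBig 𝓕) {m i ν : ℕ}
    {U : Submodule ℂ ((Fin m → Ind k) → ℂ)} (hU : IsEffective 𝓕 m i ν U)
    {u : (Fin m → Ind k) → ℂ} (hu : u ∈ U) {y : Fin m → Ind k} (hy : u y ≠ 0) : Splits y ν := by
  obtain ⟨π, hπ, P, v, hv, hs⟩ := exists_order_split hk y
  obtain ⟨z, hz, hzπ⟩ := h.place π hπ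
  exact ⟨P, v, hv, (le_slopes (h.two_le z hz) hzπ (integral_word hU hz hu hy)).trans hs⟩

open scoped Classical in
lemma mem_piece {m i ν : ℕ} {u : (Fin m → Ind k) → ℂ} : u ∈ pieceConiveau k m i ν ↔
    ∀ y, u y ≠ 0 → ∑ p, (k (y p).1).wt = i ∧ Splits y ν := by
  constructor
  · intro hu
    unfold pieceConiveau at hu
    induction hu using Submodule.span_induction with
    | mem u hu =>
      obtain ⟨x, h1, h2, rfl⟩ := hu
      intro y hy
      by_cases h : y = x
      · subst h
        exact ⟨h1, h2⟩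
      · exact absurd (Pi.single_eq_of_ne h 1) hy
    | zero => exact fun y hy => absurd rfl hy
    | add u v _ _ ihu ihv =>
      intro y hy
      by_cases h : u y = 0
      · exact ihv y (fun h' => hy (by rw [Pi.add_apply, h, h', add_zero]))
      · exact ihu y h
    | smul c u _ ih =>
      intro y hy
      exact ih y (fun h' => hy (by rw [Pi.smul_apply, h', smul_zero]))
  · intro h
    have h1 : u = ∑ y, u y • (Pi.single y 1 : (Fin m → Ind k) → ℂ) := by
      funext x
      rw [Finset.sum_apply, Finset.sum_eq_single x]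
      · simp
      · intro y _ hy
        rw [Pi.smul_apply, Pi.single_eq_of_ne hy.symm, smul_zero]
      · intro hx
        exact absurd (Finset.mem_univ x) hx
    rw [h1]
    refine Submodule.sum_mem _ fun y _ => ?_
    by_cases hy : u y = 0
    · rw [hy, zero_smul]
      exact Submodule.zero_mem _
    · exact Submodule.smul_mem _ _ (Submodule.subset_span ⟨y, (h y hy).1, (h y hy).2, rfl⟩)

lemma galois_le (hk : ∀ b, (k b).Ok) (h : IsBig 𝓕) (m i ν : ℕ) :
    galoisConiveau 𝓕 m i ν ≤ pieceConiveau k m i ν := by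
  refine sSup_le fun U hU u hu => mem_piece.2 fun y hy => ⟨hU.degree u hu y hy, ?_⟩
  exact splits_of_mem hk h hU hu hy

lemma nu_le (hk : ∀ b, (k b).Ok) (b : B) (j : ℕ) : (k b).nu j ≤ j * (k b).wt := by
  unfold Blk.nu
  rw [← Finset.sum_filter]
  have h1 : ∀ i ∈ (Finset.univ.filter fun i : Fin (k b).dim => (i : ℕ) < j),
      (k b).slope i ≤ (k b).wt := fun i _ => by
    have := (hk b).dual i
    omega
  refine (Finset.sum_le_card_nsmul _ _ _ h1).trans ?_
  rw [smul_eq_mul]
  refine Nat.mul_le_mul_right _ ?_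
  have h2 : ((Finset.univ.filter fun i : Fin (k b).dim => (i : ℕ) < j).map
      ⟨Fin.val, Fin.val_injective⟩) ⊆ Finset.range j := by
    intro x hx
    rw [Finset.mem_map] at hx
    obtain ⟨i, hi, rfl⟩ := hx
    rw [Finset.mem_filter] at hi
    exact Finset.mem_range.2 hi.2
  have h3 := Finset.card_le_card h2
  rwa [Finset.card_map, Finset.card_range] at h3

/-- The eigenvalue of a word of different letters of a block. -/
lemma integral_distinct (hk : ∀ b, (k b).Ok) (h : IsBig 𝓕) {z : Frob k}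
    (hz : z ∈ 𝓕) {m : ℕ} {y : Fin m → Ind k} {S : Finset (Fin m)} {b : B}
    (hb : ∀ p ∈ S, (y p).1 = b) (hinj : Set.InjOn y S) :
    (k b).nu S.card ≤ ∑ p ∈ S, (k (y p).1).wt ∧
      IsIntegral ℤ ((∏ p ∈ S, z.2 (y p)) / (z.1 : ℂ) ^ (k b).nu S.card) ∧
      IsIntegral ℤ ((z.1 : ℂ) ^ ((∑ p ∈ S, (k (y p).1).wt) - (k b).nu S.card) /
        ∏ p ∈ S, z.2 (y p)) := by
  classical
  have hq0 : (z.1 : ℂ) ≠ 0 := Nat.cast_ne_zero.2 (by have := h.two_le z hz; omega)
  have hne : ∀ l, z.2 l ≠ 0 := by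
    intro l h0
    have h1 := h.dual z hz l
    rw [h0, zero_mul] at h1
    exact pow_ne_zero _ hq0 h1.symm
  have hwt : ∑ p ∈ S, (k (y p).1).wt = S.card * (k b).wt := by
    rw [Finset.sum_congr rfl fun p hp => by rw [hb p hp], Finset.sum_const, smul_eq_mul]
  have hle := nu_le hk b S.card
  -- the letters
  obtain ⟨J, hJ⟩ : ∃ J : Finset (Fin (k b).dim),
      J = Finset.univ.filter fun j => (⟨b, j⟩ : Ind k) ∈ S.image y := ⟨_, rfl⟩
  have himg : S.image y = J.image fun j => (⟨b, j⟩ : Ind k) := by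
    ext l
    rw [Finset.mem_image]
    constructor
    · rintro ⟨p, hp, rfl⟩
      have h1 := hb p hp
      rw [Finset.mem_image]
      refine ⟨h1 ▸ (y p).2, ?_, ?_⟩
      · rw [hJ, Finset.mem_filter]
        refine ⟨Finset.mem_univ _, Finset.mem_image.2 ⟨p, hp, ?_⟩⟩
        subst h1
        rfl
      · subst h1
        rfl
    · intro hl
      rw [Finset.mem_image] at hl
      obtain ⟨j, hj, rfl⟩ := hl
      rw [hJ, Finset.mem_filter] at hj
      exact Finset.mem_image.1 hj.2
  have hinj2 : Set.InjOn (fun j => (⟨b, j⟩ : Ind k)) J := by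
    intro r _ s _ h
    simpa using h
  have hcard : S.card = J.card := by
    rw [← Finset.card_image_of_injOn hinj, himg, Finset.card_image_of_injOn hinj2]
  have hprod : ∏ p ∈ S, z.2 (y p) = ∏ j ∈ J, z.2 ⟨b, j⟩ := by
    rw [← Finset.prod_image (f := z.2) (g := y) hinj, himg, Finset.prod_image hinj2]
  have h1 := h.above z hz b J
  refine ⟨hwt ▸ hle, ?_, ?_⟩
  · rw [hprod, hcard]
    exact h1
  · have h2 := h.above z hz b (J.image Fin.rev)
    rw [Finset.card_image_of_injective _ Fin.rev_injective,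
      Finset.prod_image (fun x _ y _ h => Fin.rev_injective h)] at h2
    have h3 : ∏ j ∈ J, z.2 ⟨b, j.rev⟩ = (z.1 : ℂ) ^ (S.card * (k b).wt) /
        ∏ p ∈ S, z.2 (y p) := by
      rw [hprod, eq_div_iff (Finset.prod_ne_zero_iff.2 fun j _ => hne _),
        ← Finset.prod_mul_distrib, hcard, mul_comm J.card, pow_mul, ← Finset.prod_const]
      refine Finset.prod_congr rfl fun j _ => ?_
      rw [mul_comm]
      exact h.dual z hz ⟨b, j⟩
    rw [h3, ← hcard] at h2
    rw [hwt]
    have h4 : (z.1 : ℂ) ^ (S.card * (k b).wt - (k b).nu S.card) / ∏ p ∈ S, z.2 (y p) =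
        (z.1 : ℂ) ^ (S.card * (k b).wt) / (∏ p ∈ S, z.2 (y p)) /
          (z.1 : ℂ) ^ (k b).nu S.card := by
      rw [pow_sub₀ _ hq0 hle]
      field_simp
    rw [h4]
    exact h2

/-- The eigenvalue of a piece. -/
lemma integral_piece (hk : ∀ b, (k b).Ok) (h : IsBig 𝓕) {z : Frob k}
    (hz : z ∈ 𝓕) {m : ℕ} {y : Fin m → Ind k} {S : Finset (Fin m)} {v : ℕ}
    (hp : IsPiece y S v) : v ≤ ∑ p ∈ S, (k (y p).1).wt ∧
      IsIntegral ℤ ((∏ p ∈ S, z.2 (y p)) / (z.1 : ℂ) ^ v) ∧
      IsIntegral ℤ ((z.1 : ℂ) ^ ((∑ p ∈ S, (k (y p).1).wt) - v) / ∏ p ∈ S, z.2 (y p)) := by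
  classical
  have hq0 : (z.1 : ℂ) ≠ 0 := Nat.cast_ne_zero.2 (by have := h.two_le z hz; omega)
  rcases hp with ⟨b, hb, hinj, _, rfl⟩ | ⟨p, q, hpq, rfl, hop, rfl⟩
  · exact integral_distinct hk h hz hb hinj
  · have h1 : ∏ x ∈ ({p, q} : Finset (Fin m)), z.2 (y x) = (z.1 : ℂ) ^ (k (y p).1).wt := by
      rw [Finset.prod_pair hpq, hop]
      exact h.dual z hz (y p)
    have h2 : ∑ x ∈ ({p, q} : Finset (Fin m)), (k (y x).1).wt =
        (k (y p).1).wt + (k (y p).1).wt := by
      rw [Finset.sum_pair hpq, hop]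
      rfl
    rw [h1, h2]
    refine ⟨by omega, ?_, ?_⟩
    · rw [div_self (pow_ne_zero _ hq0)]
      exact isIntegral_one
    · rw [Nat.add_sub_cancel, div_self (pow_ne_zero _ hq0)]
      exact isIntegral_one

/-- The eigenvalue of a word which splits. -/
lemma integral_split (hk : ∀ b, (k b).Ok) (h : IsBig 𝓕) {z : Frob k}
    (hz : z ∈ 𝓕) {m ν : ℕ} {y : Fin m → Ind k} (hs : Splits y ν) :
    IsIntegral ℤ ((∏ p, z.2 (y p)) / (z.1 : ℂ) ^ ν) ∧
      IsIntegral ℤ ((z.1 : ℂ) ^ ((∑ p, (k (y p).1).wt) - ν) / ∏ p, z.2 (y p)) := by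
  classical
  obtain ⟨P, v, hv, hν⟩ := hs
  have hq0 : (z.1 : ℂ) ≠ 0 := Nat.cast_ne_zero.2 (by have := h.two_le z hz; omega)
  have hqi : IsIntegral ℤ (z.1 : ℂ) := by
    simpa using (isIntegral_algebraMap (R := ℤ) (A := ℂ) (x := (z.1 : ℤ)))
  have h1 := fun S hS => integral_piece hk h hz (hv S hS)
  have hprod : ∏ p, z.2 (y p) = ∏ S ∈ P.parts, ∏ p ∈ S, z.2 (y p) := by
    have h3 := Finset.prod_biUnion (f := fun p => z.2 (y p)) P.disjoint
    rw [P.biUnion_parts] at h3
    exact h3
  have hsum : ∑ p, (k (y p).1).wt = ∑ S ∈ P.parts, ∑ p ∈ S, (k (y p).1).wt := by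
    have h3 := Finset.sum_biUnion (f := fun p => (k (y p).1).wt) P.disjoint
    rw [P.biUnion_parts] at h3
    exact h3
  have hle : ∑ S ∈ P.parts, v S ≤ ∑ p, (k (y p).1).wt := by
    rw [hsum]
    exact Finset.sum_le_sum fun S hS => (h1 S hS).1
  have hA : IsIntegral ℤ ((∏ p, z.2 (y p)) / (z.1 : ℂ) ^ (∑ S ∈ P.parts, v S)) := by
    rw [hprod, ← Finset.prod_pow_eq_pow_sum, ← Finset.prod_div_distrib]
    exact IsIntegral.prod _ fun S hS => (h1 S hS).2.1
  have hB : IsIntegral ℤ ((z.1 : ℂ) ^ ((∑ p, (k (y p).1).wt) - ∑ S ∈ P.parts, v S) /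
      ∏ p, z.2 (y p)) := by
    have h2 : (∑ p, (k (y p).1).wt) - ∑ S ∈ P.parts, v S =
        ∑ S ∈ P.parts, ((∑ p ∈ S, (k (y p).1).wt) - v S) := by
      rw [hsum, Finset.sum_tsub_distrib _ fun S hS => (h1 S hS).1]
    rw [h2, hprod, ← Finset.prod_pow_eq_pow_sum, ← Finset.prod_div_distrib]
    exact IsIntegral.prod _ fun S hS => (h1 S hS).2.2
  obtain ⟨e, he⟩ := Nat.exists_eq_add_of_le hν
  constructor
  · have h2 : (∏ p, z.2 (y p)) / (z.1 : ℂ) ^ ν =
        (∏ p, z.2 (y p)) / (z.1 : ℂ) ^ (∑ S ∈ P.parts, v S) * (z.1 : ℂ) ^ e := by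
      rw [he, pow_add]
      field_simp
    rw [h2]
    exact hA.mul (hqi.pow e)
  · have h2 : (z.1 : ℂ) ^ ((∑ p, (k (y p).1).wt) - ν) / ∏ p, z.2 (y p) =
        (z.1 : ℂ) ^ ((∑ p, (k (y p).1).wt) - ∑ S ∈ P.parts, v S) / (∏ p, z.2 (y p)) *
          (z.1 : ℂ) ^ e := by
      have h3 : (∑ p, (k (y p).1).wt) - ν =
          ((∑ p, (k (y p).1).wt) - ∑ S ∈ P.parts, v S) + e := by omega
      rw [h3, pow_add]
      ring
    rw [h2]
    exact hB.mul (hqi.pow e)

lemma mem_galois {m i ν : ℕ} {u : (Fin m → Ind k) → ℂ} (hu : ∀ y, u y ≠ 0 →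
    ∑ p, (k (y p).1).wt = i ∧ ∀ z ∈ 𝓕, IsIntegral ℤ ((∏ p, z.2 (y p)) / (z.1 : ℂ) ^ ν) ∧
      IsIntegral ℤ ((z.1 : ℂ) ^ (i - ν) / ∏ p, z.2 (y p))) : u ∈ galoisConiveau 𝓕 m i ν := by
  let U : Submodule ℂ ((Fin m → Ind k) → ℂ) :=
    { carrier := {u | ∀ y, u y ≠ 0 → ∑ p, (k (y p).1).wt = i ∧ ∀ z ∈ 𝓕,
        IsIntegral ℤ ((∏ p, z.2 (y p)) / (z.1 : ℂ) ^ ν) ∧
        IsIntegral ℤ ((z.1 : ℂ) ^ (i - ν) / ∏ p, z.2 (y p))}
      zero_mem' := fun y hy => absurd rfl hy
      add_mem' := by
        intro u v hu hv y hy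
        by_cases h : u y = 0
        · exact hv y (fun h' => hy (by rw [Pi.add_apply, h, h', add_zero]))
        · exact hu y h
      smul_mem' := by
        intro c u hu y hy
        exact hu y (fun h' => hy (by rw [Pi.smul_apply, h', smul_zero])) }
  have hU : IsEffective 𝓕 m i ν U :=
    { degree := fun u hu y hy => (hu y hy).1
      stable := by
        intro z hz u hu y hy
        exact hu y (fun h0 => hy (by
          change (∏ p, z.2 (y p)) * u y = 0
          rw [h0, mul_zero]))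
      integral := by
        intro z hz u hu h0 β hβ
        obtain ⟨y, hy⟩ : ∃ y, u y ≠ 0 := by
          by_contra hcon
          push Not at hcon
          exact h0 (funext hcon)
        have h3 := congrFun hβ y
        change (∏ p, z.2 (y p)) * u y = β * u y at h3
        rw [← mul_right_cancel₀ hy h3]
        exact (hu y hy).2 z hz }
  exact (le_sSup (show U ∈ {U | IsEffective 𝓕 m i ν U} from hU)) hu

lemma galois_eq (hk : ∀ b, (k b).Ok) (h : IsBig 𝓕) (m i ν : ℕ) :
    galoisConiveau 𝓕 m i ν = pieceConiveau k m i ν := by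
  refine le_antisymm (galois_le hk h m i ν) fun u hu => mem_galois fun y hy => ?_
  obtain ⟨h1, h2⟩ := mem_piece.1 hu y hy
  refine ⟨h1, fun z hz => ?_⟩
  rw [← h1]
  exact integral_split hk h hz h2

/-! ### The geometric filtration -/

variable {G : (m : ℕ) → ℕ → Submodule ℂ ((Fin m → Ind k) → ℂ)}

open scoped Classical in
/-- A word which is separated from all other words in the support. -/
lemma single_mem (hG : IsGeometric 𝓕 G) {j ν : ℕ} {u : (Fin j → Ind k) → ℂ} (hu : u ∈ G j ν)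
    {w : Fin j → Ind k} (hw : u w ≠ 0) (hsep : ∀ x, u x ≠ 0 → x ≠ w → ∃ z ∈ 𝓕, ∃ p : Fin j,
      z.2 (x p) ≠ z.2 (w p)) : Pi.single w 1 ∈ G j ν := by
  have key : ∀ A : Finset (Fin j → Ind k), w ∉ A → ∃ u' ∈ G j ν, u' w = u w ∧
      ∀ x, u' x ≠ 0 → u x ≠ 0 ∧ x ∉ A := by
    intro A
    induction A using Finset.induction_on with
    | empty => exact fun _ => ⟨u, hu, rfl, fun x hx => ⟨hx, Finset.notMem_empty x⟩⟩
    | insert x A hx ih =>
      intro hwA
      rw [Finset.mem_insert] at hwA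
      push Not at hwA
      obtain ⟨u', hu', h1, h2⟩ := ih hwA.2
      by_cases h3 : u x = 0
      · refine ⟨u', hu', h1, fun x' hx' => ⟨(h2 x' hx').1, fun h => ?_⟩⟩
        rw [Finset.mem_insert] at h
        rcases h with rfl | h
        · exact (h2 _ hx').1 h3
        · exact (h2 _ hx').2 h
      · obtain ⟨z, hz, p, hzp⟩ := hsep x h3 hwA.1.symm
        have h4 : z.2 (w p) - z.2 (x p) ≠ 0 := sub_ne_zero.2 hzp.symm
        refine ⟨(z.2 (w p) - z.2 (x p))⁻¹ • ((fun y => z.2 (y p) * u' y) - z.2 (x p) • u'),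
          Submodule.smul_mem _ _ (Submodule.sub_mem _ (hG.frob z hz j ν p u' hu')
            (Submodule.smul_mem _ _ hu')), ?_, ?_⟩
        · simp only [Pi.smul_apply, Pi.sub_apply, smul_eq_mul]
          rw [h1]
          field_simp
        · intro x' hx'
          simp only [Pi.smul_apply, Pi.sub_apply, smul_eq_mul] at hx'
          have h5 : u' x' ≠ 0 := fun h => hx' (by rw [h]; ring)
          refine ⟨(h2 x' h5).1, fun h => ?_⟩
          rw [Finset.mem_insert] at h
          rcases h with rfl | h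
          · exact hx' (by ring)
          · exact (h2 x' h5).2 h
  obtain ⟨u', hu', h1, h2⟩ := key (Finset.univ.erase w) (Finset.notMem_erase _ _)
  have h3 : (Pi.single w 1 : (Fin j → Ind k) → ℂ) = (u w)⁻¹ • u' := by
    funext x
    rw [Pi.smul_apply, smul_eq_mul]
    by_cases hx : x = w
    · subst hx
      rw [Pi.single_eq_same, h1, inv_mul_cancel₀ hw]
    · rw [Pi.single_eq_of_ne hx]
      by_contra hcon
      have h4 : u' x ≠ 0 := fun h => hcon (by rw [h, mul_zero])
      exact (h2 x h4).2 (Finset.mem_erase.2 ⟨hx, Finset.mem_univ _⟩)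
  rw [h3]
  exact Submodule.smul_mem _ _ hu'

open scoped Classical in
/-- Words of different letters of a block. -/
lemma word_mem (h : IsBig 𝓕) (hG : IsGeometric 𝓕 G) {b : B} {j ν : ℕ}
    (halt : altPart k b j ≤ G j ν) {w : Fin j → Ind k} (hb : ∀ p, (w p).1 = b)
    (hw : Function.Injective w) : Pi.single w 1 ∈ G j ν := by
  obtain ⟨u, hu⟩ : ∃ u : (Fin j → Ind k) → ℂ, u = ∑ σ : Equiv.Perm (Fin j),
      ((Equiv.Perm.sign σ : ℤ) : ℂ) • (Pi.single (w ∘ σ) 1 : (Fin j → Ind k) → ℂ) := ⟨_, rfl⟩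
  have hu' : ∀ y, u y = ∑ σ : Equiv.Perm (Fin j),
      ((Equiv.Perm.sign σ : ℤ) : ℂ) * (if y = w ∘ σ then 1 else 0) := by
    intro y
    rw [hu, Finset.sum_apply]
    refine Finset.sum_congr rfl fun σ _ => ?_
    rw [Pi.smul_apply, smul_eq_mul, Pi.single_apply]
  have hsupp : ∀ y, u y ≠ 0 → ∃ σ : Equiv.Perm (Fin j), y = w ∘ σ := by
    intro y hy
    by_contra hcon
    push Not at hcon
    refine hy ?_
    rw [hu']
    refine Finset.sum_eq_zero fun σ _ => ?_
    rw [if_neg (hcon σ), mul_zero]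
  have hmem : u ∈ altPart k b j := by
    refine ⟨fun y hy p => ?_, fun y p q hpq => ?_⟩
    · obtain ⟨σ, rfl⟩ := hsupp y hy
      exact hb _
    · rw [hu', hu', ← Finset.sum_neg_distrib]
      refine Fintype.sum_equiv (Equiv.mulRight (Equiv.swap p q)) _ _ fun σ => ?_
      rw [Equiv.coe_mulRight, Equiv.Perm.sign_mul, Equiv.Perm.sign_swap hpq]
      have e : (y ∘ Equiv.swap p q = w ∘ σ) ↔ (y = w ∘ (σ * Equiv.swap p q)) := by
        constructor
        · intro h
          have h2 : y = (y ∘ Equiv.swap p q) ∘ Equiv.swap p q := by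
            funext x
            simp
          rw [h2, h]
          rfl
        · intro h
          rw [h]
          funext x
          simp
      simp only [e]
      push_cast
      ring
  have hone : u w ≠ 0 := by
    rw [hu', Finset.sum_eq_single 1]
    · simp
    · intro σ _ hσ
      rw [if_neg, mul_zero]
      intro h
      refine hσ (Equiv.ext fun x => ?_)
      have h2 := congrFun h x
      exact (hw h2).symm
    · intro h
      exact absurd (Finset.mem_univ _) h
  refine single_mem hG (halt hmem) hone fun x hx hxw => ?_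
  obtain ⟨σ, rfl⟩ := hsupp x hx
  obtain ⟨p, hp⟩ := Function.ne_iff.1 hxw
  have h1 := hb (σ p)
  have h2 := hb p
  change w (σ p) ≠ w p at hp
  rcases e1 : w (σ p) with ⟨b1, j1⟩
  rcases e2 : w p with ⟨b2, j2⟩
  rw [e1, e2] at hp
  rw [e1] at h1
  rw [e2] at h2
  simp only at h1 h2
  subst h1
  subst h2
  obtain ⟨z, hz, hne⟩ := h.sep _ j1 j2 (fun h => hp (by rw [h]))
  refine ⟨z, hz, p, ?_⟩
  change z.2 (w (σ p)) ≠ z.2 (w p)
  rw [e1, e2]
  exact hne

open scoped Classical in
/-- The subword of `y` on `S` is in `G ν`, for every order of `S`. -/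
def Has (G : (m : ℕ) → ℕ → Submodule ℂ ((Fin m → Ind k) → ℂ)) {m : ℕ} (y : Fin m → Ind k)
    (S : Finset (Fin m)) (ν : ℕ) : Prop :=
  ∀ (r : ℕ) (c : Fin r ≃ S), Pi.single (fun i => y (c i)) 1 ∈ G r ν

open scoped Classical in
lemma has_union (hG : IsGeometric 𝓕 G) {m : ℕ} {y : Fin m → Ind k} {S T : Finset (Fin m)}
    (hST : Disjoint S T) {ν μ : ℕ} (hS : Has G y S ν) (hT : Has G y T μ) :
    Has G y (S ∪ T) (ν + μ) := by
  intro r c
  have h1 := hG.mul S.card T.card r ((Equiv.sumCongr S.equivFin.symm T.equivFin.symm).trans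
    ((Equiv.Finset.union S T hST).trans c.symm)) ν μ _ (hS S.card S.equivFin.symm) _
    (hT T.card T.equivFin.symm)
  convert h1 using 1
  funext x
  have e1 : ∀ a : Fin S.card, ((c (c.symm (Equiv.Finset.union S T hST (Sum.inl
      (S.equivFin.symm a))))) : Fin m) = S.equivFin.symm a := fun a => by
    rw [Equiv.apply_symm_apply, Equiv.Finset.union_inl]
  have e2 : ∀ a : Fin T.card, ((c (c.symm (Equiv.Finset.union S T hST (Sum.inr
      (T.equivFin.symm a))))) : Fin m) = T.equivFin.symm a := fun a => by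
    rw [Equiv.apply_symm_apply, Equiv.Finset.union_inr]
  by_cases hx : x = fun i => y (c i)
  · subst hx
    rw [Pi.single_eq_same]
    have h2 : (fun i => y (c i)) ∘ (((Equiv.sumCongr S.equivFin.symm T.equivFin.symm).trans
        ((Equiv.Finset.union S T hST).trans c.symm)) ∘ Sum.inl) =
        fun a => y (S.equivFin.symm a) := by
      funext a
      exact congrArg y (e1 a)
    have h3 : (fun i => y (c i)) ∘ (((Equiv.sumCongr S.equivFin.symm T.equivFin.symm).trans
        ((Equiv.Finset.union S T hST).trans c.symm)) ∘ Sum.inr) =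
        fun a => y (T.equivFin.symm a) := by
      funext a
      exact congrArg y (e2 a)
    rw [h2, h3, Pi.single_eq_same, Pi.single_eq_same, mul_one]
  · rw [Pi.single_eq_of_ne hx]
    obtain ⟨i, hi⟩ := Function.ne_iff.1 hx
    symm
    rcases h4 : (Equiv.Finset.union S T hST).symm (c i) with a | a
    · have h5 : c.symm (Equiv.Finset.union S T hST (Sum.inl a)) = i := by
        rw [← h4, Equiv.apply_symm_apply, Equiv.symm_apply_apply]
      rw [Pi.single_eq_of_ne, zero_mul]
      intro h6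
      have h7 := congrFun h6 (S.equivFin a)
      change x (c.symm (Equiv.Finset.union S T hST (Sum.inl (S.equivFin.symm
        (S.equivFin a))))) = y (S.equivFin.symm (S.equivFin a)) at h7
      have h8 := e1 (S.equivFin a)
      rw [Equiv.symm_apply_apply] at h7 h8
      rw [h5] at h7 h8
      rw [← h8] at h7
      exact hi h7
    · have h5 : c.symm (Equiv.Finset.union S T hST (Sum.inr a)) = i := by
        rw [← h4, Equiv.apply_symm_apply, Equiv.symm_apply_apply]
      rw [mul_comm, Pi.single_eq_of_ne, zero_mul]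
      intro h6
      have h7 := congrFun h6 (T.equivFin a)
      change x (c.symm (Equiv.Finset.union S T hST (Sum.inr (T.equivFin.symm
        (T.equivFin a))))) = y (T.equivFin.symm (T.equivFin a)) at h7
      have h8 := e2 (T.equivFin a)
      rw [Equiv.symm_apply_apply] at h7 h8
      rw [h5] at h7 h8
      rw [← h8] at h7
      exact hi h7

lemma op_op' (l : Ind k) : op (op l) = l := by
  obtain ⟨b, i⟩ := l
  unfold op
  simp

/-- The length of a piece is at most half the dimension. -/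
lemma card_le_half (hk : ∀ b, (k b).Ok) {m : ℕ} {y : Fin m → Ind k} {S : Finset (Fin m)} {b : B}
    (hb : ∀ p ∈ S, (y p).1 = b) (hinj : Set.InjOn y S)
    (hno : ∀ p ∈ S, ∀ q ∈ S, p ≠ q → y q ≠ op (y p)) : 2 * S.card ≤ (k b).dim + 1 := by
  classical
  obtain ⟨J, hJ⟩ : ∃ J : Finset (Fin (k b).dim),
      J = Finset.univ.filter fun j => ∃ p ∈ S, y p = ⟨b, j⟩ := ⟨_, rfl⟩
  have hmem : ∀ j, j ∈ J ↔ ∃ p ∈ S, y p = ⟨b, j⟩ := fun j => by
    rw [hJ, Finset.mem_filter]
    exact ⟨fun h => h.2, fun h => ⟨Finset.mem_univ _, h⟩⟩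
  have hcard : S.card ≤ J.card := by
    have h1 : S.image y ⊆ J.image fun j => (⟨b, j⟩ : Ind k) := by
      intro l hl
      obtain ⟨p, hp, rfl⟩ := Finset.mem_image.1 hl
      have h2 := hb p hp
      rw [Finset.mem_image]
      refine ⟨h2 ▸ (y p).2, ?_, ?_⟩
      · rw [hmem]
        refine ⟨p, hp, ?_⟩
        subst h2
        rfl
      · subst h2
        rfl
    have h2 := Finset.card_le_card h1
    rw [Finset.card_image_of_injOn hinj] at h2
    exact h2.trans Finset.card_image_le
  rcases (hk b).even with h1 | h1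
  · have h2 := Finset.card_le_univ J
    rw [Fintype.card_fin] at h2
    omega
  · have hd : Disjoint J (J.image Fin.rev) := by
      rw [Finset.disjoint_left]
      intro j hj hj'
      obtain ⟨j', hj2, hjj⟩ := Finset.mem_image.1 hj'
      obtain ⟨p, hp, hpj⟩ := (hmem j).1 hj
      obtain ⟨q, hq, hqj⟩ := (hmem j').1 hj2
      have h2 : j' = j.rev := by rw [← hjj, Fin.rev_rev]
      have h3 : y q = op (y p) := by
        rw [hqj, hpj, h2]
        rfl
      by_cases hpq : p = q
      · subst hpq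
        rw [hpj] at hqj
        have h4 : j = j' := by
          have := hqj
          simpa using this
        rw [← h4] at h2
        have e1 : (j : ℕ) = (j.rev : ℕ) := congrArg _ h2
        rw [Fin.val_rev] at e1
        have e2 := j.2
        obtain ⟨x, hx⟩ := h1
        omega
      · exact hno p hp q hq hpq h3
    have h2 := Finset.card_le_univ (J ∪ J.image Fin.rev)
    rw [Finset.card_union_of_disjoint hd, Finset.card_image_of_injective _ Fin.rev_injective,
      Fintype.card_fin] at h2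
    omega

open scoped Classical in
lemma has_piece (hk : ∀ b, (k b).Ok) (h : IsBig 𝓕) (hG : IsGeometric 𝓕 G) {M : B → ℕ} {t : ℕ}
    (halt : ∀ b, ∀ j ≤ M b, 2 * j ≤ (k b).dim + 1 → altPart k b j ≤ G j (min ((k b).nu j) t))
    {m : ℕ} {y : Fin m → Ind k} (hM : ∀ b, Nat.card {p // (y p).1 = b} ≤ M b)
    {S : Finset (Fin m)} {v : ℕ} (hp : IsPiece y S v) : Has G y S (min v t) := by
  intro r c
  have hr : r = S.card := by
    have := Fintype.card_congr c
    rwa [Fintype.card_fin, Fintype.card_coe] at this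
  rcases hp with ⟨b, hb, hinj, hno, rfl⟩ | ⟨p, q, hpq, rfl, hop, rfl⟩
  · have h1 : r ≤ M b := by
      refine le_trans ?_ (hM b)
      rw [hr, ← Fintype.card_coe, ← Nat.card_eq_fintype_card]
      refine Nat.card_le_card_of_injective (fun p : S => (⟨p.1, hb _ p.2⟩ : {p // (y p).1 = b})) ?_
      intro p q hpq
      exact Subtype.ext (congrArg (fun x : {p // (y p).1 = b} => x.1) hpq)
    have h2 := card_le_half hk hb hinj hno
    rw [← hr] at h2 ⊢
    refine word_mem h hG (halt b r h1 h2) (fun i => hb _ (c i).2) ?_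
    intro i i' hi
    exact c.injective (Subtype.ext (hinj (c i).2 (c i').2 hi))
  · rw [Finset.card_pair hpq] at hr
    subst hr
    refine hG.anti 2 _ _ (min_le_left _ _) ?_
    have h0 : (c 0 : Fin m) ≠ c 1 := fun h => by
      have := c.injective (Subtype.ext h)
      exact absurd this (by decide)
    have h2 := (c 0).2
    have h3 := (c 1).2
    rw [Finset.mem_insert, Finset.mem_singleton] at h2 h3
    rcases h2 with h2 | h2 <;> rcases h3 with h3 | h3
    · exact absurd (h2.trans h3.symm) h0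
    · have h4 : (fun i => y (c i)) = ![y p, op (y p)] := by
        funext i
        fin_cases i
        · exact congrArg y h2
        · exact (congrArg y h3).trans hop
      rw [h4]
      exact hG.pair (y p)
    · have h4 : (fun i => y (c i)) = ![op (y p), op (op (y p))] := by
        funext i
        fin_cases i
        · exact (congrArg y h2).trans hop
        · exact (congrArg y h3).trans (op_op' (y p)).symm
      rw [h4]
      exact hG.pair (op (y p))
    · exact absurd (h2.trans h3.symm) h0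

lemma min_sum_le {A : Type*} (s : Finset A) (v : A → ℕ) (t : ℕ) :
    min (∑ a ∈ s, v a) t ≤ ∑ a ∈ s, min (v a) t := by
  classical
  induction s using Finset.induction_on with
  | empty => simp
  | insert a s ha ih =>
    rw [Finset.sum_insert ha, Finset.sum_insert ha]
    omega

open scoped Classical in
lemma single_mem_of_splits (hk : ∀ b, (k b).Ok) (h : IsBig 𝓕) (hG : IsGeometric 𝓕 G)
    {M : B → ℕ} {t : ℕ}
    (halt : ∀ b, ∀ j ≤ M b, 2 * j ≤ (k b).dim + 1 → altPart k b j ≤ G j (min ((k b).nu j) t))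
    {m ν : ℕ} (hν : ν ≤ t) {y : Fin m → Ind k} (hM : ∀ b, Nat.card {p // (y p).1 = b} ≤ M b)
    (hs : Splits y ν) : Pi.single y 1 ∈ G m ν := by
  obtain ⟨P, v, hv, hPν⟩ := hs
  have key : ∀ A : Finset (Finset (Fin m)), A ⊆ P.parts →
      Has G y (A.biUnion id) (∑ S ∈ A, min (v S) t) := by
    intro A
    induction A using Finset.induction_on with
    | empty =>
      intro _ r c
      have h1 : (∑ S ∈ (∅ : Finset (Finset (Fin m))), min (v S) t) = 0 := Finset.sum_empty
      rw [h1, hG.zero]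
      exact Submodule.mem_top
    | insert S A hS ih =>
      intro hA
      have hSP : S ∈ P.parts := hA (Finset.mem_insert_self S A)
      have hAP : A ⊆ P.parts := fun x hx => hA (Finset.mem_insert_of_mem hx)
      rw [Finset.biUnion_insert, Finset.sum_insert hS]
      refine has_union hG ?_ (has_piece hk h hG halt hM (hv S hSP)) (ih hAP)
      rw [id, Finset.disjoint_biUnion_right]
      intro T hT
      exact P.disjoint hSP (hAP hT) (fun e => hS (e ▸ hT))
  have h1 := key P.parts (Finset.Subset.refl _)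
  rw [P.biUnion_parts] at h1
  have h2 := h1 m (Equiv.subtypeUnivEquiv (fun i => Finset.mem_univ i)).symm
  refine hG.anti m _ _ ?_ h2
  have h3 := min_sum_le P.parts v t
  omega

lemma alt_injective {b : B} {j : ℕ} {u : (Fin j → Ind k) → ℂ} (hu : u ∈ altPart k b j)
    {y : Fin j → Ind k} (hy : u y ≠ 0) : Function.Injective y := by
  intro p q hpq
  by_contra hne
  have h1 := hu.2 y p q hne
  have h2 : y ∘ Equiv.swap p q = y := by
    funext x
    rw [Function.comp_apply]
    by_cases hx : x = p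
    · rw [hx, Equiv.swap_apply_left, hpq]
    · by_cases hx' : x = q
      · rw [hx', Equiv.swap_apply_right, hpq]
      · rw [Equiv.swap_apply_of_ne_of_ne hx hx']
  rw [h2] at h1
  exact hy (by
    have h3 : (2 : ℂ) * u y = 0 := by linear_combination h1
    exact (mul_eq_zero.1 h3).resolve_left two_ne_zero)

lemma mem_galois_of_alt (hk : ∀ b, (k b).Ok) (h : IsBig 𝓕) {b : B} {j ν : ℕ}
    (hν : ν ≤ (k b).nu j) {u : (Fin j → Ind k) → ℂ} (hu : u ∈ altPart k b j) :
    u ∈ galoisConiveau 𝓕 j (j * (k b).wt) ν := by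
  refine mem_galois fun y hy => ?_
  have hb := hu.1 y hy
  have hinj := alt_injective hu hy
  have hwt : ∑ p, (k (y p).1).wt = j * (k b).wt := by
    rw [Finset.sum_congr rfl fun p _ => by rw [hb p], Finset.sum_const, Finset.card_univ,
      Fintype.card_fin, smul_eq_mul]
  refine ⟨hwt, fun z hz => ?_⟩
  obtain ⟨h1, h2, h3⟩ := integral_distinct (S := Finset.univ) hk h hz (fun p _ => hb p)
    hinj.injOn
  have hq0 : (z.1 : ℂ) ≠ 0 := Nat.cast_ne_zero.2 (by have := h.two_le z hz; omega)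
  have hqi : IsIntegral ℤ (z.1 : ℂ) := by
    simpa using (isIntegral_algebraMap (R := ℤ) (A := ℂ) (x := (z.1 : ℤ)))
  rw [Finset.card_univ, Fintype.card_fin] at h1 h2 h3
  rw [hwt] at h1 h3
  obtain ⟨e, he⟩ := Nat.exists_eq_add_of_le hν
  constructor
  · have h4 : (∏ p, z.2 (y p)) / (z.1 : ℂ) ^ ν =
        (∏ p, z.2 (y p)) / (z.1 : ℂ) ^ (k b).nu j * (z.1 : ℂ) ^ e := by
      rw [he, pow_add]
      field_simp
    rw [h4]
    exact h2.mul (hqi.pow e)
  · have h4 : (z.1 : ℂ) ^ (j * (k b).wt - ν) / ∏ p, z.2 (y p) =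
        (z.1 : ℂ) ^ (j * (k b).wt - (k b).nu j) / (∏ p, z.2 (y p)) * (z.1 : ℂ) ^ e := by
      have h5 : j * (k b).wt - ν = (j * (k b).wt - (k b).nu j) + e := by omega
      rw [h5, pow_add]
      ring
    rw [h4]
    exact h3.mul (hqi.pow e)

lemma atMost_of_alt {M : B → ℕ} {b : B} {j : ℕ} (hj : j ≤ M b) {u : (Fin j → Ind k) → ℂ}
    (hu : u ∈ altPart k b j) : AtMost M u := by
  intro y hy b'
  have hb := hu.1 y hy
  by_cases h : b' = b
  · subst h
    refine le_trans ?_ hj
    have h1 : Nat.card {p // (y p).1 = b'} ≤ Nat.card (Fin j) :=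
      Nat.card_le_card_of_injective (fun p => p.1) Subtype.val_injective
    rwa [Nat.card_fin] at h1
  · have h1 : IsEmpty {p // (y p).1 = b'} := ⟨fun p => h (p.2.symm.trans (hb p.1))⟩
    rw [Nat.card_of_isEmpty]
    exact Nat.zero_le _

open scoped Classical in
lemma geometric_iff (hk : ∀ b, (k b).Ok) (h : IsBig 𝓕) (hG : IsGeometric 𝓕 G) (M : B → ℕ)
    (t : ℕ) :
    (∀ m i, ∀ ν ≤ t, ∀ u ∈ galoisConiveau 𝓕 m i ν, AtMost M u → u ∈ G m ν) ↔
      ∀ b, ∀ j ≤ M b, 2 * j ≤ (k b).dim + 1 → altPart k b j ≤ G j (min ((k b).nu j) t) := by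
  constructor
  · intro hgal b j hj _ u hu
    exact hgal j _ _ (min_le_right _ _) u (mem_galois_of_alt hk h (min_le_left _ _) hu)
      (atMost_of_alt hj hu)
  · intro halt m i ν hν u hu hM
    rw [galois_eq hk h, mem_piece] at hu
    have h1 : u = ∑ y, u y • (Pi.single y 1 : (Fin m → Ind k) → ℂ) := by
      funext x
      rw [Finset.sum_apply, Finset.sum_eq_single x]
      · simp
      · intro y _ hy
        rw [Pi.smul_apply, Pi.single_eq_of_ne hy.symm, smul_zero]
      · intro hx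
        exact absurd (Finset.mem_univ x) hx
    rw [h1]
    refine Submodule.sum_mem _ fun y _ => ?_
    by_cases hy : u y = 0
    · rw [hy, zero_smul]
      exact Submodule.zero_mem _
    · exact Submodule.smul_mem _ _ (single_mem_of_splits hk h hG halt hν (hM y hy) (hu y hy).2)

end Proof

end Pool.Agent.Helper75.FF
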